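import Mathlib
import Pool.Agent.Helper23_LAP.Stmts

/-!
# LAP, module COI: the coin step
-/

set_option autoImplicit false

namespace Pool.Agent.LAP.H88

open scoped Classical

/-- The data before the coins are tossed. -/
theorem pre_of {q L : ℕ} {D δ η r T Rr : ℝ} {α β : Type} [Fintype α] [Fintype β]
    {E R : Finset (α × β)} {X : Fin q → Finset α} {Y : Fin q → Finset β}
    {X' : Fin q → Finset α} {Y' : Fin q → Finset β} {F smp M : Fin q → Finset (α × β)}
    {rep : Fin q → α × β → α × β} {sg : Fin q → α × β → Bool}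
    (hSt : St E R L q D δ η r T Rr X Y) (hLab : Lab E R L q D X Y X' Y' F smp)
    (hM : ∀ c, M c ⊆ smp c) (hPI : ∀ c, PI (M c)) (hC : ∀ c, Coin (M c) (rep c) (sg c)) :
    Pre E R (R \ allS smp) L q D δ T Rr X Y M rep sg where
  cl := hSt.cl
  tx := hSt.tx
  ty := hSt.ty
  rl := hSt.rl
  sub := Finset.sdiff_subset
  mp := hPI
  mR := fun c a ha => hLab.sub c a (hM c ha)
  mR' := by
    intro c
    rw [Finset.disjoint_left]
    intro a ha hb
    rw [Finset.mem_sdiff] at hb
    apply hb.2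
    unfold allS
    rw [Finset.mem_biUnion]
    exact ⟨c, Finset.mem_univ _, hM c ha⟩
  m2 := by
    intro c Q hQ
    refine le_trans ?_ (hLab.m2 c Q hQ)
    exact_mod_cast Finset.card_le_card (Finset.inter_subset_inter_left (hM c))
  cn := hC

/-- COI. -/
theorem coi (hCOA : COAStmt) (hLOS : LOSStmt) (hLOD : LODStmt) (hNXA : NXAStmt) : COIStmt := by
  intro k L q D δ η r T Rr ζ P P' δ' η' r' T' R' hPrm hNxt α β _ _ E R X Y X' Y' F smp M rep sg
    hReg hRE hSt hSnk hLab hM hPI hX hY hC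
  obtain ⟨ω, h1, h2, h3, h4, h5⟩ := hCOA k L q D δ η r T Rr ζ P P' hPrm α β E R (R \ allS smp)
    X Y M rep sg hReg hRE (pre_of hSt hLab hM hPI hC)
  have hlod := hLOD k L q D δ η r T Rr ζ P P' hPrm α β E R X Y X' Y' F smp M hSt hSnk hLab hM hX hY
  have hlos := hLOS k L q D δ η r T Rr ζ P P' hPrm α β E R X Y X' Y' F smp M hSt hSnk hLab hM hPI
    hX hY
  have hL0 : (0 : ℝ) < L := by
    have := hPrm.L4
    have h : 0 < L := by omega
    exact_mod_cast h
  have hD0 : 0 ≤ D := le_trans (by positivity) hPrm.D1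
  have hδD : (δ + 8 / (L : ℝ) ^ 4) * D ≤ δ' * D := mul_le_mul_of_nonneg_right hNxt.d hD0
  have hLD : 0 ≤ 1 / (L : ℝ) ^ 4 * D := by positivity
  have e6 : 6 / (L : ℝ) ^ 4 = 6 * (1 / (L : ℝ) ^ 4) := by ring
  have e8 : 8 / (L : ℝ) ^ 4 = 8 * (1 / (L : ℝ) ^ 4) := by ring
  refine ⟨ω, ?_⟩
  constructor
  · intro c
    constructor
    · exact Finset.sdiff_subset.trans hRE
    · intro x
      have ha := (hlod c).1 x
      have hb := ((h2 c).1 x).1
      rw [e6] at ha
      rw [e8] at hδD
      nlinarith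
    · intro x
      have ha := (hSt.cl c).ou x
      have hb := ((h2 c).1 x).2
      rw [e8] at hδD
      nlinarith
    · intro y
      have ha := (hlod c).2 y
      have hb := ((h2 c).2 y).1
      rw [e6] at ha
      rw [e8] at hδD
      nlinarith
    · intro y
      have ha := (hSt.cl c).iu y
      have hb := ((h2 c).2 y).2
      rw [e8] at hδD
      nlinarith
  · intro x
    exact (h3 x).trans hNxt.t
  · intro y
    exact (h4 y).trans hNxt.t
  · intro a ha
    exact (h5 a ha).trans hNxt.R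
  · intro c Q hQ
    obtain ⟨g1, g2, g3, g4⟩ := h1 c Q hQ
    obtain ⟨f1, f2, f3, f4, f5⟩ := hlos c Q hQ
    have hH := hSt.hh c Q hQ
    unfold HQ at hH ⊢
    rw [abs_le] at g1
    constructor
    · refine hNXA k L q D δ η r T Rr ζ P P' δ' η' r' T' R' hPrm hNxt
        _ _ _ _ _ _ _ _ _ (Q.card : ℝ) ?_ ?_ ?_ ?_ ?_ hH.1 f1 f2 f4 g1.2 g2 g3
      · unfold cq; positivity
      · unfold cq; positivity
      · positivity
      · positivity
      · positivity
    · refine hNXA k L q D δ η r T Rr ζ P P' δ' η' r' T' R' hPrm hNxt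
        _ _ _ _ _ _ _ _ _ (Q.card : ℝ) ?_ ?_ ?_ ?_ ?_ hH.2 f1 f3 f5 ?_ g2 g4
      · unfold cq; positivity
      · unfold cq; positivity
      · positivity
      · positivity
      · positivity
      · linarith [g1.1]

end Pool.Agent.LAP.H88
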