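import Mathlib
import Pool.Agent.Helper23_LAP.Stmts

/-!
# LAP, module LIN: sums of coins
-/

set_option autoImplicit false

namespace Pool.Agent.LAP.H88

open scoped Classical

variable {U Λ : Type}

theorem cv_local (rep : Λ → U) (sg : Λ → Bool) (ω ω' : U → Bool) (l : Λ)
    (h : ω (rep l) = ω' (rep l)) : cv rep sg ω l = cv rep sg ω' l := by
  unfold cv
  rw [h]

theorem cv_mem (rep : Λ → U) (sg : Λ → Bool) (ω : U → Bool) (l : Λ) :
    0 ≤ cv rep sg ω l ∧ cv rep sg ω l ≤ 1 := by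
  unfold cv
  split_ifs <;> norm_num

theorem cv_flip (rep : Λ → U) (sg : Λ → Bool) (ω : U → Bool) (l : Λ) :
    cv rep sg (fun u => !ω u) l = 1 - cv rep sg ω l := by
  unfold cv
  cases h1 : ω (rep l) <;> cases h2 : sg l <;> simp [h1]

/-- The mean of a coin. -/
theorem ex_cv [Fintype U] (rep : Λ → U) (sg : Λ → Bool) (l : Λ) :
    ex (fun ω => cv rep sg ω l) = 1 / 2 := by
  unfold ex
  have hinv : Function.Involutive (fun (ω : U → Bool) (u : U) => !ω u) := by
    intro ω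
    funext u
    simp
  have h1 : ∑ ω : U → Bool, cv rep sg (fun u => !ω u) l = ∑ ω : U → Bool, cv rep sg ω l :=
    Equiv.sum_comp hinv.toPerm (fun ω => cv rep sg ω l)
  have h2 : ∑ ω : U → Bool, cv rep sg (fun u => !ω u) l =
      (Fintype.card (U → Bool) : ℝ) - ∑ ω : U → Bool, cv rep sg ω l := by
    rw [Finset.sum_congr rfl fun ω _ => cv_flip rep sg ω l, Finset.sum_sub_distrib]
    simp
  have h3 : (0 : ℝ) < (Fintype.card (U → Bool) : ℝ) := by
    exact_mod_cast Fintype.card_pos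
  rw [div_eq_iff (ne_of_gt h3)]
  linarith

theorem ex_sum_cv [Fintype U] (rep : Λ → U) (sg : Λ → Bool) (J : Finset Λ) :
    ex (fun ω => ∑ l ∈ J, cv rep sg ω l) = (J.card : ℝ) / 2 := by
  have h : ex (fun ω => ∑ l ∈ J, cv rep sg ω l) = ∑ l ∈ J, ex (fun ω => cv rep sg ω l) := by
    unfold ex
    rw [Finset.sum_comm, Finset.sum_div]
  rw [h, Finset.sum_congr rfl fun l _ => ex_cv rep sg l]
  simp
  ring

theorem fib_card_le (M : Finset Λ) (rep : Λ → U) (sg : Λ → Bool) (hC : Coin M rep sg)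
    (J : Finset Λ) (hJ : J ⊆ M) (u : U) : (J.filter fun l => rep l = u).card ≤ 2 := by
  by_contra hcon
  push Not at hcon
  obtain ⟨a, ha, b, hb, c, hc, hab, hac, hbc⟩ := Finset.two_lt_card.1 hcon
  rw [Finset.mem_filter] at ha hb hc
  have h1 := hC a (hJ ha.1) b (hJ hb.1) hab (ha.2.trans hb.2.symm)
  have h2 := hC a (hJ ha.1) c (hJ hc.1) hac (ha.2.trans hc.2.symm)
  have h3 := hC b (hJ hb.1) c (hJ hc.1) hbc (hb.2.trans hc.2.symm)
  revert h1 h2 h3
  cases sg a <;> cases sg b <;> cases sg c <;> simp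

/-- LIN. -/
theorem lin (hMCD : MCDStmt) : LINStmt := by
  intro U Λ _ _ M rep sg hC
  refine ⟨fun l => ex_cv rep sg l, ?_⟩
  intro J hJ s t hs hs0 ht
  have hdiff : ∀ (u : U) (ω ω' : U → Bool), (∀ v, v ≠ u → ω v = ω' v) →
      |(∑ l ∈ J, cv rep sg ω l) - ∑ l ∈ J, cv rep sg ω' l| ≤
        (((J.filter fun l => rep l = u).card : ℕ) : ℝ) := by
    intro u ω ω' hωω'
    rw [← Finset.sum_sub_distrib]
    refine (Finset.abs_sum_le_sum_abs _ _).trans ?_
    rw [Finset.card_filter, Nat.cast_sum]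
    refine Finset.sum_le_sum fun l _ => ?_
    by_cases hu : rep l = u
    · rw [if_pos hu]
      have h1 := cv_mem rep sg ω l
      have h2 := cv_mem rep sg ω' l
      rw [abs_le]
      constructor <;> push_cast <;> linarith [h1.1, h1.2, h2.1, h2.2]
    · rw [if_neg hu, cv_local rep sg ω ω' l (hωω' _ hu)]
      simp
  have hsum : ∑ u : U, ((((J.filter fun l => rep l = u).card : ℕ) : ℝ)) ^ 2 ≤ 2 * s := by
    have h1 : ∀ u : U, ((((J.filter fun l => rep l = u).card : ℕ) : ℝ)) ^ 2 ≤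
        2 * (((J.filter fun l => rep l = u).card : ℕ) : ℝ) := by
      intro u
      have h2 : (((J.filter fun l => rep l = u).card : ℕ) : ℝ) ≤ 2 := by
        exact_mod_cast fib_card_le M rep sg hC J hJ u
      have h3 : (0 : ℝ) ≤ (((J.filter fun l => rep l = u).card : ℕ) : ℝ) := Nat.cast_nonneg _
      nlinarith
    have h4 : ∑ u : U, (((J.filter fun l => rep l = u).card : ℕ) : ℝ) = (J.card : ℝ) := by
      rw [← Nat.cast_sum]
      congr 1
      exact (Finset.card_eq_sum_card_fiberwise (fun l _ => Finset.mem_univ (rep l))).symm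
    calc ∑ u : U, ((((J.filter fun l => rep l = u).card : ℕ) : ℝ)) ^ 2
        ≤ ∑ u : U, 2 * (((J.filter fun l => rep l = u).card : ℕ) : ℝ) :=
          Finset.sum_le_sum fun u _ => h1 u
      _ = 2 * (J.card : ℝ) := by rw [← Finset.mul_sum, h4]
      _ ≤ 2 * s := by linarith
  have hmain := hMCD U (fun ω => ∑ l ∈ J, cv rep sg ω l)
    (fun u => (((J.filter fun l => rep l = u).card : ℕ) : ℝ)) (2 * s) t hdiff hsum (by linarith) ht
  rw [ex_sum_cv rep sg J] at hmain
  have he : 2 * t ^ 2 / (2 * s) = t ^ 2 / s := by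
    rw [mul_div_mul_left _ _ (by norm_num : (2 : ℝ) ≠ 0)]
  rw [he] at hmain
  exact hmain

end Pool.Agent.LAP.H88
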